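import Pool.Agent.Y727.RP.Stm

set_option autoImplicit false

/-! RP-KER: the mean of `1 / |1 - z|` on circles. -/

namespace Pool.Agent.Y545.RP

open Pool.Agent.Y727.RP
open scoped Real

theorem norm_sq_eq (ρ θ : ℝ) : ‖1 - circleMap 0 ρ θ‖ ^ 2 = (1 - ρ) ^ 2 + 2 * ρ * (1 - Real.cos θ) := by
  have h1 : (1 - circleMap 0 ρ θ : ℂ) = ((1 - ρ * Real.cos θ : ℝ) : ℂ) +
      ((-(ρ * Real.sin θ) : ℝ) : ℂ) * Complex.I := by
    rw [circleMap_zero, Complex.exp_mul_I]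
    push_cast
    ring
  rw [h1, ← Complex.normSq_eq_norm_sq, Complex.normSq_add_mul_I]
  have := Real.sin_sq_add_cos_sq θ
  linear_combination ρ ^ 2 * this

theorem norm_ge {ρ : ℝ} (h1 : ρ < 1) (hρ : 1 / 2 ≤ ρ) (θ : ℝ) :
    1 - ρ ≤ ‖1 - circleMap 0 ρ θ‖ := by
  have h2 := norm_sq_eq ρ θ
  have h3 := Real.cos_le_one θ
  have h4 : (1 - ρ) ^ 2 ≤ ‖1 - circleMap 0 ρ θ‖ ^ 2 := by
    rw [h2]
    nlinarith [mul_nonneg (by linarith : (0 : ℝ) ≤ 2 * ρ) (by linarith : (0 : ℝ) ≤ 1 - Real.cos θ)]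
  exact (pow_le_pow_iff_left₀ (by linarith) (norm_nonneg _) (by norm_num)).1 h4

theorem norm_ge' {ρ : ℝ} (hρ : 1 / 2 ≤ ρ) {s : ℝ} (h0 : 0 ≤ s) (hs : s ≤ π) (θ : ℝ)
    (hc : Real.cos θ = Real.cos s) : s / π ≤ ‖1 - circleMap 0 ρ θ‖ := by
  have h2 := norm_sq_eq ρ θ
  have h3 := Real.cos_le_one_sub_mul_cos_sq (x := s) (by rw [abs_of_nonneg h0]; exact hs)
  have hpi := Real.pi_pos
  have h4 : (s / π) ^ 2 ≤ ‖1 - circleMap 0 ρ θ‖ ^ 2 := by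
    rw [h2, hc, div_pow]
    have h5 : 2 / π ^ 2 * s ^ 2 ≤ 1 - Real.cos s := by linarith
    have h6 : s ^ 2 / π ^ 2 ≤ 2 / π ^ 2 * s ^ 2 := by
      rw [div_mul_eq_mul_div]
      gcongr
      nlinarith [sq_nonneg s]
    have h7 : 0 ≤ 1 - Real.cos s := by linarith [Real.cos_le_one s]
    nlinarith [sq_nonneg (1 - ρ)]
  exact (pow_le_pow_iff_left₀ (by positivity) (norm_nonneg _) (by norm_num)).1 h4

/-- the majorant -/
noncomputable def maj (θ : ℝ) : ℝ := θ ^ (-(3 / 4) : ℝ) + (2 * π - θ) ^ (-(3 / 4) : ℝ)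

theorem maj_int : IntervalIntegrable maj MeasureTheory.volume 0 (2 * π) := by
  have h1 : IntervalIntegrable (fun x : ℝ => x ^ (-(3 / 4) : ℝ)) MeasureTheory.volume 0 (2 * π) :=
    intervalIntegral.intervalIntegrable_rpow' (by norm_num)
  have h2 : IntervalIntegrable (fun x : ℝ => (2 * π - x) ^ (-(3 / 4) : ℝ))
      MeasureTheory.volume 0 (2 * π) := by
    have h3 := h1.comp_sub_left (2 * π)
    simpa using h3.symm
  exact h1.add h2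

theorem point {ρ : ℝ} (h1 : ρ < 1) (hρ : 1 / 2 ≤ ρ) {θ : ℝ} (h0 : 0 < θ) (h2 : θ < 2 * π) :
    1 / ‖1 - circleMap 0 ρ θ‖ ≤ (1 - ρ) ^ (-(1 / 4) : ℝ) * (π ^ (3 / 4 : ℝ) * maj θ) := by
  have hpi := Real.pi_pos
  have hN := norm_ge h1 hρ θ
  set N := ‖1 - circleMap 0 ρ θ‖ with hNdef
  have ha : 0 < 1 - ρ := by linarith
  have hN0 : 0 < N := by linarith
  have key : ∀ s : ℝ, 0 < s → s / π ≤ N →
      1 / N ≤ (1 - ρ) ^ (-(1 / 4) : ℝ) * (π ^ (3 / 4 : ℝ) * s ^ (-(3 / 4) : ℝ)) := by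
    intro s hs hsN
    have h3 : (1 - ρ) ^ (1 / 4 : ℝ) ≤ N ^ (1 / 4 : ℝ) :=
      Real.rpow_le_rpow ha.le hN (by norm_num)
    have h4 : (s / π) ^ (3 / 4 : ℝ) ≤ N ^ (3 / 4 : ℝ) :=
      Real.rpow_le_rpow (by positivity) hsN (by norm_num)
    have h5 : N = N ^ (1 / 4 : ℝ) * N ^ (3 / 4 : ℝ) := by
      rw [← Real.rpow_add hN0]
      norm_num
    have h6 : (1 - ρ) ^ (1 / 4 : ℝ) * (s / π) ^ (3 / 4 : ℝ) ≤ N := by
      rw [h5]
      exact mul_le_mul h3 h4 (by positivity) (by positivity)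
    have h7 : 0 < (1 - ρ) ^ (1 / 4 : ℝ) * (s / π) ^ (3 / 4 : ℝ) := by positivity
    have h8 : 1 / N ≤ 1 / ((1 - ρ) ^ (1 / 4 : ℝ) * (s / π) ^ (3 / 4 : ℝ)) :=
      one_div_le_one_div_of_le h7 h6
    refine h8.trans (le_of_eq ?_)
    rw [Real.rpow_neg ha.le, Real.rpow_neg hs.le, Real.div_rpow hs.le hpi.le]
    have h9 : (1 - ρ) ^ (1 / 4 : ℝ) ≠ 0 := by positivity
    have h10 : s ^ (3 / 4 : ℝ) ≠ 0 := by positivity
    have h11 : π ^ (3 / 4 : ℝ) ≠ 0 := by positivity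
    field_simp
  have hmaj : ∀ s : ℝ, s = θ ∨ s = 2 * π - θ → s ^ (-(3 / 4) : ℝ) ≤ maj θ := by
    have h3 : 0 ≤ θ ^ (-(3 / 4) : ℝ) := Real.rpow_nonneg h0.le _
    have h4 : 0 ≤ (2 * π - θ) ^ (-(3 / 4) : ℝ) := Real.rpow_nonneg (by linarith) _
    unfold maj
    rintro s (rfl | rfl) <;> linarith
  have hs : ∃ s : ℝ, 0 < s ∧ s / π ≤ N ∧ (s = θ ∨ s = 2 * π - θ) := by
    rcases le_total θ π with h3 | h3
    · exact ⟨θ, h0, norm_ge' hρ h0.le h3 θ rfl, Or.inl rfl⟩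
    · refine ⟨2 * π - θ, by linarith, norm_ge' hρ (by linarith) (by linarith) θ ?_, Or.inr rfl⟩
      rw [Real.cos_two_pi_sub]
  obtain ⟨s, hs0, hsN, hs'⟩ := hs
  refine (key s hs0 hsN).trans ?_
  have h3 := hmaj s hs'
  gcongr

theorem t_ker : S_KER := by
  intro δ hδ
  have hpi := Real.pi_pos
  set J := ∫ θ in (0 : ℝ)..(2 * π), maj θ with hJ
  have hJ0 : 0 ≤ J := by
    refine intervalIntegral.integral_nonneg (by linarith) fun θ hθ => ?_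
    unfold maj
    exact add_nonneg (Real.rpow_nonneg hθ.1 _) (Real.rpow_nonneg (by linarith [hθ.2]) _)
  set K := 2 * (π ^ (3 / 4 : ℝ) * J) + 1 with hK
  have hK0 : 0 < K := by positivity
  have hd : 0 < δ / K := by positivity
  refine ⟨max (1 / 2) (1 - (δ / K) ^ 4), (by norm_num : (0 : ℝ) ≤ 1 / 2).trans (le_max_left _ _),
    max_lt (by norm_num) (by linarith [pow_pos hd 4]), fun ρ h1 h2 => ?_⟩
  have hρ : 1 / 2 ≤ ρ := ((le_max_left _ _).trans_lt h1).le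
  have hρ' : 1 - (δ / K) ^ 4 < ρ := (le_max_right _ _).trans_lt h1
  have ha : 0 < 1 - ρ := by linarith
  have hcont : Continuous fun θ : ℝ => 1 / ‖1 - circleMap 0 ρ θ‖ := by
    refine continuous_const.div (continuous_const.sub (continuous_circleMap 0 ρ)).norm
      fun θ => ?_
    have := norm_ge h2 hρ θ
    linarith
  have hle : ∫ θ in (0 : ℝ)..(2 * π), 1 / ‖1 - circleMap 0 ρ θ‖ ≤
      (1 - ρ) ^ (-(1 / 4) : ℝ) * (π ^ (3 / 4 : ℝ) * J) := by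
    rw [hJ, ← intervalIntegral.integral_const_mul, ← intervalIntegral.integral_const_mul]
    refine intervalIntegral.integral_mono_on_of_le_Ioo (by linarith)
      (hcont.intervalIntegrable _ _) ?_ fun θ hθ => point h2 hρ hθ.1 hθ.2
    exact (maj_int.const_mul _).const_mul _
  have hsq : Real.sqrt (1 - ρ ^ 2) ≤ 2 * (1 - ρ) ^ (1 / 2 : ℝ) := by
    rw [← Real.sqrt_eq_rpow, Real.sqrt_le_left (by positivity), mul_pow,
      Real.sq_sqrt ha.le]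
    nlinarith
  have h5 : (1 - ρ) ^ (1 / 4 : ℝ) ≤ δ / K := by
    have h6 : 1 - ρ ≤ (δ / K) ^ 4 := by linarith
    have h7 := Real.rpow_le_rpow ha.le h6 (by norm_num : (0 : ℝ) ≤ 1 / 4)
    have h8 : ((δ / K) ^ 4) ^ (1 / 4 : ℝ) = δ / K := by
      rw [← Real.rpow_natCast, ← Real.rpow_mul hd.le]
      norm_num
    rwa [h8] at h7
  have h6 : (1 - ρ) ^ (1 / 2 : ℝ) * (1 - ρ) ^ (-(1 / 4) : ℝ) = (1 - ρ) ^ (1 / 4 : ℝ) := by
    rw [← Real.rpow_add ha]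
    norm_num
  calc Real.sqrt (1 - ρ ^ 2) * (∫ θ in (0 : ℝ)..(2 * π), 1 / ‖1 - circleMap 0 ρ θ‖)
      ≤ (2 * (1 - ρ) ^ (1 / 2 : ℝ)) * ((1 - ρ) ^ (-(1 / 4) : ℝ) * (π ^ (3 / 4 : ℝ) * J)) := by
        refine mul_le_mul hsq hle ?_ (by positivity)
        exact intervalIntegral.integral_nonneg (by linarith) fun θ _ => by positivity
    _ = (1 - ρ) ^ (1 / 4 : ℝ) * (2 * (π ^ (3 / 4 : ℝ) * J)) := by rw [← h6]; ring
    _ ≤ (δ / K) * K := by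
        refine mul_le_mul h5 (by rw [hK]; linarith) (by positivity) hd.le
    _ = δ := by field_simp

end Pool.Agent.Y545.RP
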